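import Mathlib

set_option autoImplicit false

/-!
# Disjoint projective copies of the blocking set `B` in `PG(2, p^3)`

For every prime `p` and every field `F` with `p ^ 3` elements there is an invertible `3 × 3` matrix
over `F` whose projectivity maps `B = {(1, x, x^p)} ∪ {(0, 1, y) : y^(p²+p+1) = 1}` to a set disjoint
from `B`.

For `p ≥ 3` consider the matrices `g(x₀, x₁, x₂) = (x₁, a x₀, x₂ + h x₀)`, where `a ≠ 0` and the norms
`N(h)`, `N(a)` are different (`N(z) = z ^ (p²+p+1)`). Then `|B ∩ g(B)|` is the number of `x ≠ 0` with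
`x^p (x^p + h) = a^p x`. If there is at least one such `x` for each `(a, h)`, then `(a, x) ↦ (a, h)` is a
surjection from the set `S` of pairs `(a, x)` with `N(h) ≠ N(a)`, `h = a^p x^(1-p) - x^p`, onto the set of
the parameters `(a, h)`. As `(a, x) ↦ (a^p x^(1-p), h)` is an injection between these finite sets, the
surjection would be injective. But some `(a, h)` has the two solutions `1` and `r`: otherwise
`N(r^(2p-1) - 1) = N(r - 1)` for all `r`, and this would be a non-trivial polynomial identity of degree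
less than `p ^ 3`. For `p = 2` take `g(x₀, x₁, x₂) = (x₂, x₁, c x₀)` with `c ≠ 0, 1`.
-/

namespace Pool.Agent.Results.MP_837a86_co.DisjointCopies

open scoped LinearAlgebra.Projectivization

/-- The point set `B = {(1, x, x^p) : x ∈ F} ∪ {(0, 1, y) : y ∈ F, y^(p²+p+1) = 1}` of the projective
plane over `F`. -/
def B (p : ℕ) (F : Type) [Field F] : Set (ℙ F (Fin 3 → F)) :=
  {P | ∃ (x : F) (hv : (![1, x, x ^ p] : Fin 3 → F) ≠ 0),
    P = Projectivization.mk F ![1, x, x ^ p] hv} ∪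
  {P | ∃ (y : F) (hv : (![0, 1, y] : Fin 3 → F) ≠ 0), y ^ (p ^ 2 + p + 1) = 1 ∧
    P = Projectivization.mk F ![0, 1, y] hv}

lemma toLin_injective {F : Type} [Field F] (M : GL (Fin 3) F) :
    Function.Injective (Matrix.toLin' M.1) := by
  intro v w hvw
  have h1 : M.1.mulVec v = M.1.mulVec w := by simpa [Matrix.toLin'_apply] using hvw
  have h2 : (M⁻¹).1.mulVec (M.1.mulVec v) = (M⁻¹).1.mulVec (M.1.mulVec w) := by rw [h1]
  have h3 : (M⁻¹).1 * M.1 = 1 := by
    rw [← Matrix.GeneralLinearGroup.coe_mul, inv_mul_cancel]; rfl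
  rwa [Matrix.mulVec_mulVec, Matrix.mulVec_mulVec, h3, Matrix.one_mulVec, Matrix.one_mulVec] at h2

/-- The projectivity of the projective plane over `F` induced by an invertible `3 × 3` matrix. -/
noncomputable def projectivity {F : Type} [Field F] (M : GL (Fin 3) F) :
    ℙ F (Fin 3 → F) → ℙ F (Fin 3 → F) :=
  Projectivization.map (Matrix.toLin' M.1) (toLin_injective M)

lemma disjoint_of {p : ℕ} {F : Type} [Field F] (M : GL (Fin 3) F)
    (h11 : ∀ (x z t : F), t ≠ 0 → M.1.mulVec ![1, x, x ^ p] ≠ t • ![1, z, z ^ p])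
    (h12 : ∀ (x y t : F), t ≠ 0 → y ^ (p ^ 2 + p + 1) = 1 →
      M.1.mulVec ![1, x, x ^ p] ≠ t • ![0, 1, y])
    (h21 : ∀ (y z t : F), t ≠ 0 → y ^ (p ^ 2 + p + 1) = 1 →
      M.1.mulVec ![0, 1, y] ≠ t • ![1, z, z ^ p])
    (h22 : ∀ (y z t : F), t ≠ 0 → y ^ (p ^ 2 + p + 1) = 1 → z ^ (p ^ 2 + p + 1) = 1 →
      M.1.mulVec ![0, 1, y] ≠ t • ![0, 1, z]) :
    B p F ∩ projectivity M '' B p F = ∅ := by
  rw [Set.eq_empty_iff_forall_notMem]
  rintro P ⟨hP, Q, hQ, hQP⟩
  have key : ∀ (v w : Fin 3 → F) (hv : v ≠ 0) (hw : w ≠ 0),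
      projectivity M (Projectivization.mk F v hv) = Projectivization.mk F w hw →
      ∃ t : F, t ≠ 0 ∧ M.1.mulVec v = t • w := by
    intro v w hv hw h
    have h' : Projectivization.map (Matrix.toLin' M.1) (toLin_injective M)
        (Projectivization.mk F v hv) = Projectivization.mk F w hw := h
    rw [Projectivization.map_mk, Projectivization.mk_eq_mk_iff] at h'
    obtain ⟨t, ht⟩ := h'
    refine ⟨t, t.ne_zero, ?_⟩
    rw [← Matrix.toLin'_apply]
    exact ht.symm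
  rcases hQ with ⟨x, hx, rfl⟩ | ⟨y, hy, hy1, rfl⟩
  · rcases hP with ⟨z, hz, rfl⟩ | ⟨z, hz, hz1, rfl⟩
    · obtain ⟨t, ht, h⟩ := key _ _ _ _ hQP
      exact h11 x z t ht h
    · obtain ⟨t, ht, h⟩ := key _ _ _ _ hQP
      exact h12 x z t ht hz1 h
  · rcases hP with ⟨z, hz, rfl⟩ | ⟨z, hz, hz1, rfl⟩
    · obtain ⟨t, ht, h⟩ := key _ _ _ _ hQP
      exact h21 y z t ht hy1 h
    · obtain ⟨t, ht, h⟩ := key _ _ _ _ hQP
      exact h22 y z t ht hy1 hz1 h

/-- The case `p = 2`. -/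
lemma case_two (F : Type) [Field F] [Fintype F] (hF : Fintype.card F = 2 ^ 3) :
    ∃ M : GL (Fin 3) F, B 2 F ∩ projectivity M '' B 2 F = ∅ := by
  classical
  obtain ⟨c, hc0, hc1⟩ : ∃ c : F, c ≠ 0 ∧ c ≠ 1 := by
    by_contra hcon
    push Not at hcon
    have h1 : (Finset.univ : Finset F) ⊆ {0, 1} := by
      intro c _
      by_cases h : c = 0
      · simp [h]
      · simp [hcon c h]
    have h2 := Finset.card_le_card h1
    rw [Finset.card_univ, hF] at h2
    have h3 : (({0, 1} : Finset F)).card ≤ 2 := Finset.card_le_two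
    omega
  have hdet : (!![0, 0, 1; 0, 1, 0; c, 0, 0] : Matrix (Fin 3) (Fin 3) F).det ≠ 0 := by
    rw [Matrix.det_fin_three]
    simp [hc0]
  refine ⟨Matrix.GeneralLinearGroup.mkOfDetNeZero _ hdet, ?_⟩
  have hM : (Matrix.GeneralLinearGroup.mkOfDetNeZero
      (!![0, 0, 1; 0, 1, 0; c, 0, 0] : Matrix (Fin 3) (Fin 3) F) hdet).1 =
      !![0, 0, 1; 0, 1, 0; c, 0, 0] := rfl
  apply disjoint_of
  · intro x z t ht h
    rw [hM] at h
    have e0 := congrFun h 0
    have e1 := congrFun h 1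
    have e2 := congrFun h 2
    simp [Matrix.mulVec, dotProduct, Fin.sum_univ_three] at e0 e1 e2
    have hx : x ≠ 0 := by
      rintro rfl
      simp at e0
      exact ht e0.symm
    have h1 : x * z = 1 := by
      have : x * (x * z) = x * 1 := by rw [← e0] at e1; linear_combination -e1
      exact mul_left_cancel₀ hx this
    apply hc1
    rw [e2, ← e0]
    linear_combination (x * z + 1) * h1
  · intro x y t ht hy h
    rw [hM] at h
    have e0 := congrFun h 0
    have e1 := congrFun h 1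
    simp [Matrix.mulVec, dotProduct, Fin.sum_univ_three] at e0 e1
    rw [e0] at e1
    exact ht e1.symm
  · intro y z t ht hy h
    rw [hM] at h
    have e0 := congrFun h 0
    have e1 := congrFun h 1
    have e2 := congrFun h 2
    simp [Matrix.mulVec, dotProduct, Fin.sum_univ_three] at e0 e1 e2
    rcases e2 with e2 | e2
    · exact ht e2
    · rw [e2] at e1
      simp at e1
  · intro y z t ht hy hz h
    rw [hM] at h
    have e0 := congrFun h 0
    simp [Matrix.mulVec, dotProduct, Fin.sum_univ_three] at e0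
    rw [e0] at hy
    simp at hy

/-- `N (z ^ p) = N (z)`, where `N (z) = z ^ (p ^ 2 + p + 1)`. -/
lemma norm_frob {F : Type} [Field F] [Fintype F] {p : ℕ} (hF : Fintype.card F = p ^ 3) (z : F) :
    (z ^ p) ^ (p ^ 2 + p + 1) = z ^ (p ^ 2 + p + 1) := by
  have h : z ^ (p ^ 3) = z := by rw [← hF]; exact FiniteField.pow_card z
  have h1 : (z ^ p) ^ (p ^ 2 + p + 1) = z ^ (p ^ 3) * z ^ (p ^ 2 + p) := by
    rw [← pow_mul, ← pow_add]
    congr 1
    ring
  rw [h1, h, ← pow_succ']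

open Polynomial in
/-- There is an `r ≠ 0` with `N(r^(2p-1) - 1) ≠ N(r - 1)`; here `p = m + 3`. -/
lemma exists_r {F : Type} [Field F] [Fintype F] {p m : ℕ} (hp : p.Prime) (hm : p = m + 3)
    (hF : Fintype.card F = p ^ 3) (hch : CharP F p) :
    ∃ r : F, r ≠ 0 ∧ (r ^ (2 * m + 5) - 1) ^ (p ^ 2 + p + 1) ≠ (r - 1) ^ (p ^ 2 + p + 1) := by
  classical
  by_contra hcon
  push Not at hcon
  have : Fact p.Prime := ⟨hp⟩
  let D : F[X] := X ^ (2 * m ^ 2 + 13 * m + 20) + X ^ (m ^ 3 + 8 * m ^ 2 + 23 * m + 24) +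
    X ^ (m ^ 2 + 5 * m + 8) - X ^ (2 * m + 5) - X ^ (2 * m ^ 2 + 11 * m + 15) -
    X ^ (m ^ 3 + 8 * m ^ 2 + 21 * m + 19) - X ^ (m + 4) - X ^ (m ^ 2 + 6 * m + 10) -
    X ^ (m ^ 2 + 7 * m + 12) + X ^ 1 + X ^ (m + 3) + X ^ (m ^ 2 + 6 * m + 9)
  have hpow : ∀ r : F, r ^ (p ^ 3) = r := fun r => by rw [← hF]; exact FiniteField.pow_card r
  have heval : ∀ r : F, D.eval r = 0 := by
    intro r
    by_cases hr : r = 0
    · subst hr
      simp [D]
    have h := hcon r hr
    have e1 : ∀ z : F, (z - 1) ^ (p ^ 2 + p + 1) = (z ^ (p ^ 2) - 1) * ((z ^ p - 1) * (z - 1)) := by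
      intro z
      rw [pow_succ, pow_add, sub_pow_char z 1, one_pow]
      have h2 : (z - 1) ^ (p ^ 2) = z ^ (p ^ 2) - 1 := by
        rw [sub_pow_char_pow z 1, one_pow]
      rw [h2]
      ring
    rw [e1, e1] at h
    have hp1 : (r ^ (2 * m + 5)) ^ p = r ^ (2 * m ^ 2 + 11 * m + 15) := by
      rw [← pow_mul]; congr 1; rw [hm]; ring
    have hp2 : (r ^ (2 * m + 5)) ^ (p ^ 2) = r ^ (m ^ 3 + 8 * m ^ 2 + 21 * m + 19) := by
      have : (r ^ (2 * m + 5)) ^ (p ^ 2) = r ^ (p ^ 3) * r ^ (m ^ 3 + 8 * m ^ 2 + 21 * m + 18) := by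
        rw [← pow_mul, ← pow_add]; congr 1; rw [hm]; ring
      rw [this, hpow, ← pow_succ']
    rw [hp1, hp2] at h
    have hp3 : r ^ (2 * m + 5) * r ^ (2 * m ^ 2 + 11 * m + 15) = r ^ (2 * m ^ 2 + 13 * m + 20) := by
      rw [← pow_add]; congr 1; ring
    have hp4 : r ^ (2 * m + 5) * r ^ (m ^ 3 + 8 * m ^ 2 + 21 * m + 19) =
        r ^ (m ^ 3 + 8 * m ^ 2 + 23 * m + 24) := by
      rw [← pow_add]; congr 1; ring
    have hp5 : r ^ (2 * m ^ 2 + 11 * m + 15) * r ^ (m ^ 3 + 8 * m ^ 2 + 21 * m + 19) =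
        r ^ (m ^ 2 + 5 * m + 8) := by
      have : r ^ (2 * m ^ 2 + 11 * m + 15) * r ^ (m ^ 3 + 8 * m ^ 2 + 21 * m + 19) =
          r ^ (p ^ 3) * r ^ (m ^ 2 + 5 * m + 7) := by
        rw [← pow_add, ← pow_add]; congr 1; rw [hm]; ring
      rw [this, hpow, ← pow_succ']
    have hp6 : r ^ (2 * m + 5) * (r ^ (2 * m ^ 2 + 11 * m + 15) * r ^ (m ^ 3 + 8 * m ^ 2 + 21 * m + 19)) =
        r ^ (m ^ 2 + 7 * m + 13) := by
      rw [hp5, ← pow_add]; congr 1; ring
    have hq1 : r ^ p = r ^ (m + 3) := by rw [hm]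
    have hq2 : r ^ (p ^ 2) = r ^ (m ^ 2 + 6 * m + 9) := by rw [hm]; congr 1; ring
    have hq3 : r * r ^ (m + 3) = r ^ (m + 4) := by rw [← pow_succ']
    have hq4 : r * r ^ (m ^ 2 + 6 * m + 9) = r ^ (m ^ 2 + 6 * m + 10) := by rw [← pow_succ']
    have hq5 : r ^ (m + 3) * r ^ (m ^ 2 + 6 * m + 9) = r ^ (m ^ 2 + 7 * m + 12) := by
      rw [← pow_add]; congr 1; ring
    have hq6 : r * (r ^ (m + 3) * r ^ (m ^ 2 + 6 * m + 9)) = r ^ (m ^ 2 + 7 * m + 13) := by
      rw [hq5, ← pow_succ']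
    rw [hq1, hq2] at h
    simp only [D, eval_add, eval_sub, eval_pow, eval_X, pow_one]
    linear_combination (-1 : F) * h - hp3 - hp4 - hp5 + hp6 + hq3 + hq4 + hq5 - hq6
  have hD : D = 0 := by
    have hmem : D ∈ degreeLT F (m ^ 3 + 8 * m ^ 2 + 23 * m + 25) := by
      have hX : ∀ k : ℕ, k < m ^ 3 + 8 * m ^ 2 + 23 * m + 25 →
          (X ^ k : F[X]) ∈ degreeLT F (m ^ 3 + 8 * m ^ 2 + 23 * m + 25) := fun k hk => by
        rw [mem_degreeLT]
        exact lt_of_le_of_lt (degree_X_pow_le k) (by exact_mod_cast hk)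
      have hm0 : 0 ≤ m ^ 3 := Nat.zero_le _
      have hm1 : 0 ≤ m ^ 2 := Nat.zero_le _
      refine Submodule.add_mem _ (Submodule.add_mem _ (Submodule.add_mem _ (Submodule.sub_mem _
        (Submodule.sub_mem _ (Submodule.sub_mem _ (Submodule.sub_mem _ (Submodule.sub_mem _
        (Submodule.sub_mem _ (Submodule.add_mem _ (Submodule.add_mem _ (hX _ ?_) (hX _ ?_))
        (hX _ ?_)) (hX _ ?_)) (hX _ ?_)) (hX _ ?_)) (hX _ ?_)) (hX _ ?_)) (hX _ ?_)) (hX _ ?_))
        (hX _ ?_)) (hX _ ?_)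
      all_goals (generalize m ^ 3 = b; generalize m ^ 2 = a; omega)
    rw [mem_degreeLT] at hmem
    by_contra hne
    have h1 : D.natDegree < m ^ 3 + 8 * m ^ 2 + 23 * m + 25 := by
      rwa [natDegree_lt_iff_degree_lt hne]
    refine hne (Polynomial.eq_zero_of_natDegree_lt_card_of_eval_eq_zero D
      (f := fun r : F => r) (fun _ _ h => h) heval (lt_of_lt_of_le h1 ?_))
    rw [hF, hm]
    have : (m + 3) ^ 3 = m ^ 3 + 9 * m ^ 2 + 27 * m + 27 := by ring
    rw [this]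
    generalize m ^ 3 = b
    generalize m ^ 2 = a
    omega
  have hcoeff : D.coeff 1 = 1 := by
    have hX : ∀ k : ℕ, k ≠ 1 → (X ^ k : F[X]).coeff 1 = 0 := fun k hk => by
      rw [coeff_X_pow]; simp [hk.symm]
    simp only [D, coeff_add, coeff_sub]
    rw [hX (2 * m ^ 2 + 13 * m + 20) (by omega), hX (m ^ 3 + 8 * m ^ 2 + 23 * m + 24) (by omega),
      hX (m ^ 2 + 5 * m + 8) (by omega), hX (2 * m + 5) (by omega),
      hX (2 * m ^ 2 + 11 * m + 15) (by omega), hX (m ^ 3 + 8 * m ^ 2 + 21 * m + 19) (by omega),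
      hX (m + 4) (by omega), hX (m ^ 2 + 6 * m + 10) (by omega),
      hX (m ^ 2 + 7 * m + 12) (by omega), hX (m + 3) (by omega),
      hX (m ^ 2 + 6 * m + 9) (by omega), coeff_X_pow]
    simp
  rw [hD] at hcoeff
  simp at hcoeff

/-- There are parameters `a ≠ 0`, `h` with `N(h) ≠ N(a)` for which `x^p (x^p + h) = a^p x` has no
solution `x ≠ 0`. -/
lemma exists_pair {F : Type} [Field F] [Fintype F] {p m : ℕ} (hp : p.Prime) (hm : p = m + 3)
    (hF : Fintype.card F = p ^ 3) (hch : CharP F p) :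
    ∃ a h : F, a ≠ 0 ∧ h ^ (p ^ 2 + p + 1) ≠ a ^ (p ^ 2 + p + 1) ∧
      ∀ x : F, x ≠ 0 → x ^ p * (x ^ p + h) ≠ a ^ p * x := by
  classical
  have : Fact p.Prime := ⟨hp⟩
  have hpow : ∀ r : F, r ^ (p ^ 3) = r := fun r => by rw [← hF]; exact FiniteField.pow_card r
  obtain ⟨r, hr0, hrN⟩ := exists_r hp hm hF hch
  -- the pair with the two solutions `1` and `r`
  have hr2 : r ^ (2 * m + 5) * r = r ^ p * r ^ p := by
    rw [← pow_succ, ← pow_add]; congr 1; omega
  have hrp : r - r ^ p ≠ 0 := by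
    intro h
    have h1 : r ^ p = r := (sub_eq_zero.mp h).symm
    apply hrN
    rw [h1] at hr2
    rw [mul_right_cancel₀ hr0 hr2]
  have hr1 : r ^ p - 1 ≠ 0 := by
    intro h
    have h1 : (r - 1) ^ p = 0 := by rw [sub_pow_char r 1, one_pow, h]
    have h2 : r - 1 = 0 := by
      by_contra hne
      exact pow_ne_zero p hne h1
    have h3 : r = 1 := sub_eq_zero.mp h2
    apply hrp
    rw [h3]; simp
  set h0 : F := (r ^ p * r ^ p - r) / (r - r ^ p) with hh0
  set s : F := r ^ p * (r ^ p - 1) / (r - r ^ p) with hs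
  have hs1 : s = 1 + h0 := by
    rw [hs, hh0]; field_simp; ring
  have hs0 : s ≠ 0 := by
    rw [hs]
    exact div_ne_zero (mul_ne_zero (pow_ne_zero _ hr0) hr1) hrp
  set a0 : F := (s ^ p) ^ p with ha0
  have ha0p : a0 ^ p = s := by
    rw [ha0, ← pow_mul, ← pow_mul]
    have : p * (p * p) = p ^ 3 := by ring
    rw [this, hpow]
  have ha00 : a0 ≠ 0 := pow_ne_zero _ (pow_ne_zero _ hs0)
  have hNa0 : a0 ^ (p ^ 2 + p + 1) = s ^ (p ^ 2 + p + 1) := by
    rw [ha0, norm_frob hF, norm_frob hF]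
  have hNh0 : h0 ^ (p ^ 2 + p + 1) ≠ a0 ^ (p ^ 2 + p + 1) := by
    rw [hNa0, hh0, hs, div_pow, div_pow]
    intro h
    have hd : (r - r ^ p) ^ (p ^ 2 + p + 1) ≠ 0 := pow_ne_zero _ hrp
    rw [div_left_inj' hd] at h
    have e1 : r ^ p * r ^ p - r = r * (r ^ (2 * m + 5) - 1) := by rw [← hr2]; ring
    have e2 : r ^ p - 1 = (r - 1) ^ p := by rw [sub_pow_char r 1, one_pow]
    rw [e1, e2, mul_pow, mul_pow, norm_frob hF, norm_frob hF] at h
    exact hrN (mul_left_cancel₀ (pow_ne_zero _ hr0) h)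
  -- suppose that all pairs have a solution
  by_contra hcon
  push Not at hcon
  let A : Type := {t : F × F // t.1 ≠ 0 ∧ t.2 ^ (p ^ 2 + p + 1) ≠ t.1 ^ (p ^ 2 + p + 1)}
  let S : Type := {t : F × F // t.1 ≠ 0 ∧ t.2 ≠ 0 ∧
    (t.1 ^ p * t.2 / t.2 ^ p - t.2 ^ p) ^ (p ^ 2 + p + 1) ≠ t.1 ^ (p ^ 2 + p + 1)}
  let Φ : S → A := fun t => ⟨(t.1.1, t.1.1 ^ p * t.1.2 / t.1.2 ^ p - t.1.2 ^ p), t.2.1, t.2.2.2⟩
  have hΦ : Function.Surjective Φ := by
    rintro ⟨⟨a, h⟩, ha, hN⟩
    obtain ⟨x, hx0, hx⟩ := hcon a h ha hN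
    have hxp : x ^ p ≠ 0 := pow_ne_zero _ hx0
    have e : a ^ p * x / x ^ p - x ^ p = h := by
      rw [← hx]; field_simp; ring
    refine ⟨⟨(a, x), ha, hx0, ?_⟩, ?_⟩
    · simp only
      rw [e]; exact hN
    · apply Subtype.ext
      simp only [Φ]
      rw [e]
  let Ψ : S → A := fun t => ⟨(t.1.1 ^ p * t.1.2 / t.1.2 ^ p,
      t.1.1 ^ p * t.1.2 / t.1.2 ^ p - t.1.2 ^ p),
    div_ne_zero (mul_ne_zero (pow_ne_zero _ t.2.1) t.2.2.1) (pow_ne_zero _ t.2.2.1), by
      have h1 : (t.1.1 ^ p * t.1.2 / t.1.2 ^ p) ^ (p ^ 2 + p + 1) = t.1.1 ^ (p ^ 2 + p + 1) := by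
        rw [div_pow, mul_pow, norm_frob hF, norm_frob hF]
        have := pow_ne_zero (p ^ 2 + p + 1) t.2.2.1
        field_simp
      simp only
      rw [h1]
      exact t.2.2.2⟩
  have hΨ : Function.Injective Ψ := by
    rintro ⟨⟨a, x⟩, ha, hx, hN⟩ ⟨⟨b, y⟩, hb, hy, hN'⟩ h
    have h1 := congrArg (fun z : A => z.1.1) h
    have h2 := congrArg (fun z : A => z.1.2) h
    simp only [Ψ] at h1 h2
    simp only at ha hx hb hy
    have h3 : x ^ p = y ^ p := by
      have := congrArg₂ (fun u v => u - v) h1 h2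
      simpa using this
    have h4 : x = y := by
      have h5 : (x - y) ^ p = 0 := by rw [sub_pow_char x y, h3, sub_self]
      by_contra hne
      exact pow_ne_zero p (sub_ne_zero.mpr hne) h5
    subst h4
    have hxp : x ^ p ≠ 0 := pow_ne_zero _ hx
    have h6 : a ^ p = b ^ p := by
      rw [div_left_inj' hxp] at h1
      exact mul_right_cancel₀ hx h1
    have h7 : a = b := by
      have h5 : (a - b) ^ p = 0 := by rw [sub_pow_char a b, h6, sub_self]
      by_contra hne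
      exact pow_ne_zero p (sub_ne_zero.mpr hne) h5
    subst h7
    rfl
  have hbij : Function.Bijective Φ :=
    hΦ.bijective_of_nat_card_le (Nat.card_le_card_of_injective Ψ hΨ)
  have c1 : a0 ^ p * 1 / 1 ^ p - 1 ^ p = h0 := by
    rw [ha0p, hs1]; simp
  have c2 : a0 ^ p * r / r ^ p - r ^ p = h0 := by
    have hrp0 : r ^ p ≠ 0 := pow_ne_zero _ hr0
    rw [ha0p, hs, hh0]
    field_simp
    ring
  let t1 : S := ⟨(a0, 1), ha00, one_ne_zero, by simp only; rw [c1]; exact hNh0⟩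
  let t2 : S := ⟨(a0, r), ha00, hr0, by simp only; rw [c2]; exact hNh0⟩
  have ht : Φ t1 = Φ t2 := by
    apply Subtype.ext
    simp only [Φ, t1, t2]
    rw [c1, c2]
  have h8 := congrArg (fun z : S => z.1.2) (hbij.1 ht)
  simp only [t1, t2] at h8
  apply hrp
  rw [← h8]; simp

/-- **Q1**: for every prime `p` and every field `F` with `p ^ 3` elements there is a projectivity over
`F` which maps `B` to a set disjoint from `B`. -/
theorem result (p : ℕ) (hp : p.Prime) (F : Type) [Field F] [Fintype F]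
    (hF : Fintype.card F = p ^ 3) :
    ∃ M : GL (Fin 3) F, B p F ∩ projectivity M '' B p F = ∅ := by
  classical
  rcases hp.eq_two_or_odd' with rfl | hodd
  · exact case_two F hF
  have hp3 : 3 ≤ p := by
    rcases hodd with ⟨k, hk⟩
    have := hp.two_le
    omega
  obtain ⟨m, hm⟩ : ∃ m, p = m + 3 := ⟨p - 3, by omega⟩
  have hch : CharP F p := by
    obtain ⟨q, hq⟩ := CharP.exists F
    have hqp : q.Prime := (CharP.char_is_prime_or_zero F q).resolve_right (by
      rintro rfl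
      have := CharP.charP_to_charZero F
      exact not_injective_infinite_finite (fun n : ℕ => (n : F)) Nat.cast_injective)
    have h1 : p = q := by
      have h2 : ((p ^ 3 : ℕ) : F) = 0 := by rw [← hF]; exact FiniteField.cast_card_eq_zero F
      rw [CharP.cast_eq_zero_iff F q] at h2
      exact ((Nat.prime_dvd_prime_iff_eq hqp hp).mp (hqp.dvd_of_dvd_pow h2)).symm
    rw [h1]; exact hq
  obtain ⟨a, h, ha, hN, hx⟩ := exists_pair hp hm hF hch
  have hdet : (!![0, 1, 0; a, 0, 0; h, 0, 1] : Matrix (Fin 3) (Fin 3) F).det ≠ 0 := by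
    rw [Matrix.det_fin_three]
    simp [ha]
  refine ⟨Matrix.GeneralLinearGroup.mkOfDetNeZero _ hdet, ?_⟩
  have hM : (Matrix.GeneralLinearGroup.mkOfDetNeZero
      (!![0, 1, 0; a, 0, 0; h, 0, 1] : Matrix (Fin 3) (Fin 3) F) hdet).1 =
      !![0, 1, 0; a, 0, 0; h, 0, 1] := rfl
  have hp0 : p ≠ 0 := hp.ne_zero
  apply disjoint_of
  · intro x z t ht h'
    rw [hM] at h'
    have e0 := congrFun h' 0
    have e1 := congrFun h' 1
    have e2 := congrFun h' 2
    simp [Matrix.mulVec, dotProduct, Fin.sum_univ_three] at e0 e1 e2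
    subst e0
    apply hx x ht
    have e3 : a ^ p = x ^ p * z ^ p := by rw [e1, mul_pow]
    rw [e3]
    linear_combination x ^ p * e2
  · intro x y t ht hy h'
    rw [hM] at h'
    have e0 := congrFun h' 0
    have e1 := congrFun h' 1
    have e2 := congrFun h' 2
    simp [Matrix.mulVec, dotProduct, Fin.sum_univ_three] at e0 e1 e2
    subst e0
    rw [zero_pow hp0, add_zero] at e2
    apply hN
    rw [e2, mul_pow, hy, mul_one, e1]
  · intro y z t ht hy h'
    rw [hM] at h'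
    have e0 := congrFun h' 0
    have e1 := congrFun h' 1
    have e2 := congrFun h' 2
    simp [Matrix.mulVec, dotProduct, Fin.sum_univ_three] at e0 e1 e2
    have hz : z = 0 := by
      rcases e1 with e1 | e1
      · exact absurd e1 ht
      · exact e1
    rw [hz, zero_pow hp0, mul_zero] at e2
    rw [e2, zero_pow (by omega)] at hy
    exact zero_ne_one hy
  · intro y z t ht hy hz h'
    rw [hM] at h'
    have e0 := congrFun h' 0
    simp [Matrix.mulVec, dotProduct, Fin.sum_univ_three] at e0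

end Pool.Agent.Results.MP_837a86_co.DisjointCopies
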